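import Mathlib

/-!
# Project JB (MP_084b5f_co): judicious bisections, definitions

Everything is stated for an integer matrix `A` which is the adjacency matrix of a graph (`Adj01`).
`Q A s = ∑_x ∑_y A x y s x s y` is twice the sum over the edges.
-/

namespace Pool.Agent.Helper6.JB

open Finset

variable {V : Type*} [Fintype V] [DecidableEq V]

/-- adjacency matrix of a simple graph -/
structure Adj01 (A : V → V → ℤ) : Prop where
  val : ∀ x y, A x y = 0 ∨ A x y = 1
  symm : ∀ x y, A x y = A y x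
  irr : ∀ x, A x x = 0

/-- the degree -/
def dg (A : V → V → ℤ) (x : V) : ℤ := ∑ y, A x y

/-- twice the number of edges -/
def tot (A : V → V → ℤ) : ℤ := ∑ x, ∑ y, A x y

/-- twice the sum of `s x * s y` over the edges `x y` -/
def Q (A : V → V → ℤ) (s : V → ℤ) : ℤ := ∑ x, ∑ y, A x y * (s x * s y)

/-- sign vectors -/
def IsSign (s : V → ℤ) : Prop := ∀ x, s x = 1 ∨ s x = -1

/-- fixed point free involution -/
structure Pairing (σ : V → V) : Prop where
  inv : ∀ x, σ (σ x) = x
  ne : ∀ x, σ x ≠ x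

/-- sign vectors which are opposite on the two members of each pair -/
def Om (σ : V → V) : Finset (V → ℤ) :=
  {s ∈ Fintype.piFinset (fun _ : V => ({1, -1} : Finset ℤ)) | ∀ x, s (σ x) = -s x}

/-- the vertices in the pairs which are not edges -/
def Wset (A : V → V → ℤ) (σ : V → V) : Finset V := {x | A x (σ x) = 0}

/-- the type of a vertex -/
def ph (A : V → V → ℤ) (σ : V → V) (w x : V) : ℤ := A w x - A w (σ x)

/-- the vertices of `W` in good pairs -/
def Gset (A : V → V → ℤ) (σ : V → V) : Finset V :=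
  {w ∈ Wset A σ | ph A σ w ≠ ph A σ (σ w)}

/-- the weight -/
def om (A : V → V → ℤ) (N : Finset V) (x : V) : ℤ := dg A x + 2 * (if x ∈ N then 1 else 0)

/-- the isolated vertices -/
def iso (A : V → V → ℤ) : Finset V := {x | ∀ y, A x y = 0}

/-- what an extremal pairing satisfies -/
structure Good (A : V → V → ℤ) (σ : V → V) : Prop where
  pair : Pairing σ
  /-- `W` is independent -/
  ind : ∀ w ∈ Wset A σ, ∀ w' ∈ Wset A σ, A w w' = 0
  /-- no augmenting path through one pair -/
  aug : ∀ a, A a (σ a) = 1 → ∀ w ∈ Wset A σ, ∀ w' ∈ Wset A σ, A w a = 1 → A w' (σ a) = 1 → w = w'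
  /-- the class of a bad vertex -/
  bad : ∀ w₀ ∈ Wset A σ, w₀ ∉ Gset A σ →
    (#(Gset A σ) : ℤ) = 2 * ((#(Wset A σ) : ℤ) - #{w ∈ Wset A σ | ph A σ w = ph A σ w₀})

end Pool.Agent.Helper6.JB
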